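import Pool.Agent.L0h32.UZ.Stm
import Pool.Agent.L0h95.UX.UNA
import Pool.Agent.H630R2.LA.Tab

/-! # Project UZ, module LIV: every reachable configuration leads to an answer -/

set_option autoImplicit false
set_option linter.all false

namespace Pool.Agent.L0h95.UZ

open Pool.Agent.L0h32.UX Pool.Agent.L0h32.UZ Relation
open Pool.Agent.H630R2.LA (LimAut Sym fz Fr Cfg Step init initTape WS lrel bitS ix nr Ann keep
  rewrite_keep lift)
open Pool.Agent.L0h95.UXU (wok0 ann_new)

section pure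

variable {A : Type} {h : ℕ} {rel : A → Fin (2 ^ h) → Fin (2 ^ h) → Bool} {p0 : Fin (2 ^ h)}
  {facc : Fin (2 ^ h) → Bool} {K : ℕ} {W : ℕ → ℕ → Fin (2 ^ h) → Fin (2 ^ h) → ℕ}

/-- the number of layers is at most `2 * 2 ^ h` -/
theorem LL_le {w : List A} {t : ℕ} {x : Wr} (hx : WOK h rel p0 w t x) (fin : Bool) :
    LL h x fin ≤ 2 * 2 ^ h := by
  have hp : 0 < 2 ^ h := Nat.two_pow_pos h
  have hk : x.k < 2 ^ h := by
    rw [hx.2.1]
    exact Nat.mod_lt _ hp
  unfold LL
  split_ifs <;> omega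

theorem trV_wr {x : Wr} {σ : Sym (WS A)} {s' : St h} {b : WS A} {d : Bool}
    (ht : TrV h rel p0 facc K W (.wr x) σ s' b d) : Tr h rel p0 facc K W (.wr x) σ s' b d := by
  cases ht with
  | old _ _ _ _ _ ht => exact ht
  | rs _ m i _ hs hi => exact absurd hs (by simp [loc])
  | rs' _ m i _ hs hi => exact absurd hs (by simp [loc])

theorem rs_rsv {τ : ℕ → Sym (WS A)} {n : ℕ} {c c' : St h × ℕ} (hr : RS h rel p0 facc K W τ n c c') :
    RSV h rel p0 facc K W τ n c c' := by
  obtain ⟨h1, d, h2, h3, h4⟩ := hr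
  exact ⟨h1, d, TrV.old _ _ _ _ _ h2, h3, h4⟩

theorem rtg_rsv {τ : ℕ → Sym (WS A)} {n : ℕ} {c c' : St h × ℕ}
    (hr : ReflTransGen (RS h rel p0 facc K W τ n) c c') :
    ReflTransGen (RSV h rel p0 facc K W τ n) c c' := by
  induction hr with
  | refl => exact ReflTransGen.refl
  | tail _ hstep ih => exact ih.tail (rs_rsv hstep)

/-- a run on the frozen tape to the next cell or to the end -/
theorem reachV (hR : S_RST) (hAL : S_ALL) (hWG : WGood h rel p0 K W) {w : List A} {t : ℕ}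
    {τ : ℕ → Sym (WS A)} (ht : t ≤ w.length) (hA : Ann h rel p0 w τ (min (t + 1) w.length))
    {s : St h} {x : ℕ} (hs : SOK h rel p0 facc K W w t s x) :
    (t < w.length ∧ ∃ x'', ReflTransGen (RSV h rel p0 facc K W τ (t + 1)) (s, x) (.wr x'', t + 2)) ∨
    (t = w.length ∧ ∃ b, ReflTransGen (RSV h rel p0 facc K W τ (t + 1)) (s, x) (.fin b, t + 2)) := by
  by_cases h1 : ∃ x', s = .ex x'
  · obtain ⟨x', rfl⟩ := h1
    obtain ⟨-, hlt, rfl⟩ := hs
    refine Or.inl ⟨hlt, x', ReflTransGen.single ⟨le_rfl, true, TrV.old _ _ _ _ _ (Tr.wrt _ _),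
      fun _ => rfl, fun h => absurd h (by simp)⟩⟩
  by_cases h2 : ∃ b, s = .f1 b
  · obtain ⟨b, rfl⟩ := h2
    obtain ⟨rfl, heq, -⟩ := hs
    refine Or.inr ⟨heq, b, ReflTransGen.single ⟨le_rfl, true, TrV.old _ _ _ _ _ (Tr.fin _ _),
      fun _ => rfl, fun h => absurd h (by simp)⟩⟩
  by_cases h3 : ∃ b, s = .fin b
  · obtain ⟨b, rfl⟩ := h3
    obtain ⟨rfl, heq, -⟩ := hs
    exact Or.inr ⟨heq, b, ReflTransGen.refl⟩
  obtain ⟨m, hm, hrun1⟩ := hR A h rel p0 facc K W w t τ ht s x hs (fun x' h => h1 ⟨x', h⟩)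
    (fun b h => h2 ⟨b, h⟩) (fun b h => h3 ⟨b, h⟩)
  have hW : WOK h rel p0 w t m.x := hm.1
  obtain ⟨m', hm', hmx, hmf, hml, hrun2⟩ := hAL A h rel p0 facc K W w t τ ht hA m.x m.fin hW
    hm.2.1 hm.2.2.1 (hWG w _ _ (LL_le hW m.fin))
  have hrun3 : ReflTransGen (RSV h rel p0 facc K W τ (t + 1))
      (.hm (mem0 h p0 facc m.x m.fin 0), t) (.hm m', t) := rtg_rsv hrun2
  have hrun4 := hrun1.trans hrun3
  cases hfin : m.fin with
  | false =>
    have s1 : RSV h rel p0 facc K W τ (t + 1) (.hm m', t) (.ex (nxt h m'.x m'.f), t + 1) :=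
      ⟨by show t ≤ t + 1; omega, true, TrV.old _ _ _ _ _ (Tr.exi m' _ (hmf.trans hfin) hml),
        fun _ => rfl, fun h => absurd h (by simp)⟩
    have s2 : RSV h rel p0 facc K W τ (t + 1) (.ex (nxt h m'.x m'.f), t + 1)
        (.wr (nxt h m'.x m'.f), t + 2) :=
      ⟨le_rfl, true, TrV.old _ _ _ _ _ (Tr.wrt _ _), fun _ => rfl, fun h => absurd h (by simp)⟩
    exact Or.inl ⟨hm.2.1 hfin, _, (hrun4.tail s1).tail s2⟩
  | true =>
    have s1 : RSV h rel p0 facc K W τ (t + 1) (.hm m', t) (.f1 m'.f, t + 1) :=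
      ⟨by show t ≤ t + 1; omega, true, TrV.old _ _ _ _ _ (Tr.acc m' _ (hmf.trans hfin) hml),
        fun _ => rfl, fun h => absurd h (by simp)⟩
    have s2 : RSV h rel p0 facc K W τ (t + 1) (.f1 m'.f, t + 1) (.fin m'.f, t + 2) :=
      ⟨le_rfl, true, TrV.old _ _ _ _ _ (Tr.fin _ _), fun _ => rfl, fun h => absurd h (by simp)⟩
    exact Or.inr ⟨hm.2.2.1 hfin, _, (hrun4.tail s1).tail s2⟩

end pure

section mach

variable {A : Type} [Finite A] {h : ℕ} {rel : A → Fin (2 ^ h) → Fin (2 ^ h) → Bool}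
  {p0 : Fin (2 ^ h)} {facc : Fin (2 ^ h) → Bool} {K : ℕ}
  {W : ℕ → ℕ → Fin (2 ^ h) → Fin (2 ^ h) → ℕ} {N : ℕ} {hQ : Finite {s : St h // Bd h N s}}

theorem init_sym {w : List A} {t : ℕ} (ht : t < w.length) :
    initTape (vM h rel p0 facc K W N hQ) w (t + 1) = .sym (.raw w[t]) := by
  have h1 : w[t]? = some w[t] := List.getElem?_eq_getElem ht
  simp only [initTape, h1]
  rfl

theorem init_rm (w : List A) :
    initTape (vM h rel p0 facc K W N hQ) w (w.length + 1) = .rm := by
  simp only [initTape, List.getElem?_eq_none (le_refl w.length)]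

/-- the cells `1..t` have been visited, the head is on the cell `t + 1` -/
def Ph1 (w : List A) (t : ℕ) (c : Cfg (vM h rel p0 facc K W N hQ)) : Prop :=
  ∃ x, c.state.1 = .wr x ∧ c.pos = t + 1 ∧ WOK h rel p0 w t x ∧ Ann h rel p0 w c.tape t ∧
    (∀ i, t < i → c.tape i = initTape (vM h rel p0 facc K W N hQ) w i) ∧
    (∀ i, 1 ≤ i → (i ∈ c.seen ↔ i ≤ t))

/-- the cells `1..t + 1` have been visited -/
def Ph2 (w : List A) (t : ℕ) (c : Cfg (vM h rel p0 facc K W N hQ)) : Prop :=
  SOK h rel p0 facc K W w t c.state.1 c.pos ∧ Ann h rel p0 w c.tape (min (t + 1) w.length) ∧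
    (∀ i, min (t + 1) w.length < i → c.tape i = initTape (vM h rel p0 facc K W N hQ) w i) ∧
    (∀ i, 1 ≤ i → (i ∈ c.seen ↔ i ≤ t + 1))

/-- what is known of a configuration -/
def Inv (w : List A) (c : Cfg (vM h rel p0 facc K W N hQ)) : Prop :=
  ∃ t ≤ w.length, Ph1 w t c ∨ Ph2 w t c

theorem inv_init (w : List A) : Inv w (init (vM h rel p0 facc K W N hQ) w) := by
  refine ⟨0, Nat.zero_le _, Or.inl ⟨w0 h p0, rfl, rfl, wok0 w, ⟨rfl, ?_⟩, fun _ _ => rfl, ?_⟩⟩
  · intro i hi
    exact absurd hi (Nat.not_lt_zero _)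
  · intro i hi
    constructor
    · intro hc
      exact absurd hc (Set.notMem_empty i)
    · intro hc
      omega

theorem step1 (hV : S_MV0) (hK : 0 < K) {strict : Prop} {w : List A} {t : ℕ} (ht : t ≤ w.length)
    {c c' : Cfg (vM h rel p0 facc K W N hQ)}
    (hc : Ph1 w t c) (hs : Step strict w.length c c') : Ph2 w t c' := by
  obtain ⟨hpos, q, b, d, hδ, -, hst, ht1, ht2, hseen, hr, hl⟩ := hs
  have hTrV : TrV h rel p0 facc K W c.state.1 (c.tape c.pos) q.1 b d := hδ
  obtain ⟨x, e1, e2, hW, hA, hτ, hS⟩ := hc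
  have hnot : c.pos ∉ c.seen := by
    rw [e2]
    intro hc
    have := (hS (t + 1) (by omega)).1 hc
    omega
  have htape := ht2 hnot
  have hseen' : ∀ i, 1 ≤ i → (i ∈ c'.seen ↔ i ≤ t + 1) := by
    intro i hi
    rw [hseen, Set.mem_insert_iff, hS i hi, e2]
    omega
  rw [e1] at hTrV
  have hTr := trV_wr hTrV
  rcases Nat.lt_or_ge t w.length with hlt | hge
  · have hcell : c.tape c.pos = .sym (.raw w[t]) := by
      rw [e2, hτ (t + 1) (by omega), init_sym hlt]
    rw [hcell] at hTr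
    have hq : q.1 = .hm (mem0 h p0 facc x false 0) ∧ b = .mark w[t] x.b ∧ d = false := by
      generalize q.1 = s' at hTr
      cases hTr
      exact ⟨rfl, rfl, rfl⟩
    obtain ⟨q1, q2, q3⟩ := hq
    have hpos' : c'.pos = t := by
      have := hl q3
      omega
    have hmin : min (t + 1) w.length = t + 1 := by omega
    have htape' : c'.tape = Function.update c.tape (t + 1) (.sym (.mark w[t] x.b)) := by
      rw [htape, hcell, q2, e2]
      rfl
    refine ⟨?_, ?_, ?_, hseen'⟩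
    · rw [hst, q1, hpos']
      exact ⟨hV A h rel p0 facc K W w t 0 x false hK hW (fun _ => hlt)
        (fun hf => absurd hf (by simp)), rfl⟩
    · rw [hmin, htape']
      exact ann_new hA hW hlt
    · intro i hi
      rw [hmin] at hi
      rw [htape', Function.update_of_ne (by omega)]
      exact hτ i (by omega)
  · have hteq : t = w.length := by omega
    subst hteq
    have hcell : c.tape c.pos = .rm := by
      rw [e2, hτ (w.length + 1) (by omega), init_rm]
    rw [hcell] at hTr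
    have hq : q.1 = .hm (mem0 h p0 facc x true 0) ∧ b = .dum ∧ d = false := by
      generalize q.1 = s' at hTr
      cases hTr
      exact ⟨rfl, rfl, rfl⟩
    obtain ⟨q1, q2, q3⟩ := hq
    have hpos' : c'.pos = w.length := by
      have := hl q3
      omega
    have hmin : min (w.length + 1) w.length = w.length := by omega
    have htape' : c'.tape = c.tape := by
      rw [htape, hcell]
      funext i
      by_cases hi : i = c.pos
      · subst hi
        rw [Function.update_self, hcell]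
        rfl
      · rw [Function.update_of_ne hi]
    refine ⟨?_, ?_, ?_, hseen'⟩
    · rw [hst, q1, hpos']
      exact ⟨hV A h rel p0 facc K W w w.length 0 x true hK hW
        (fun hf => absurd hf (by simp)) (fun _ => rfl), rfl⟩
    · rw [hmin, htape']
      exact hA
    · intro i hi
      rw [hmin] at hi
      rw [htape']
      exact hτ i hi

theorem step2 (hM : S_MVV) (hK : 0 < K) {strict : Prop} {w : List A} {t : ℕ} (ht : t ≤ w.length)
    {c c' : Cfg (vM h rel p0 facc K W N hQ)}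
    (hc : Ph2 w t c) (hs : Step strict w.length c c') :
    (t < w.length ∧ Ph1 w (t + 1) c') ∨ Ph2 w t c' := by
  obtain ⟨hpos, q, b, d, hδ, -, hst, ht1, ht2, hseen, hr, hl⟩ := hs
  have hTr : TrV h rel p0 facc K W c.state.1 (c.tape c.pos) q.1 b d := hδ
  obtain ⟨hSOK, hA, hτ, hS⟩ := hc
  obtain ⟨hb, hx1, hcase⟩ := hM A h rel p0 facc K W w t c.tape hK ht hA c.state.1 q.1 c.pos c'.pos
    b d hSOK hTr hr hl
  have htape' : c'.tape = c.tape := by
    by_cases hin : c.pos ∈ c.seen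
    · exact ht1 hin
    · have hrk : (c.tape c.pos).rewrite (keep (c.tape c.pos)) = c.tape c.pos :=
        rewrite_keep (c.tape c.pos)
      rw [ht2 hin, hb]
      funext i
      by_cases hi : i = c.pos
      · subst hi
        rw [Function.update_self]
        exact hrk
      · rw [Function.update_of_ne hi]
  rcases hcase with ⟨x, e0, e1, e2, e3, hW, hlt⟩ | hSOK'
  · have hmin : min (t + 1) w.length = t + 1 := by omega
    rw [hmin] at hA hτ
    refine Or.inl ⟨hlt, ⟨x, ?_, e3, hW, ?_, ?_, ?_⟩⟩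
    · rw [hst]
      exact e1
    · rw [htape']
      exact hA
    · intro i hi
      rw [htape']
      exact hτ i hi
    · intro i hi
      rw [hseen, Set.mem_insert_iff, hS i hi, e2]
      omega
  · refine Or.inr ⟨?_, ?_, ?_, ?_⟩
    · rw [hst]
      exact hSOK'
    · rw [htape']
      exact hA
    · intro i hi
      rw [htape']
      exact hτ i hi
    · intro i hi
      rw [hseen, Set.mem_insert_iff, hS i hi]
      omega

theorem inv_step (hV : S_MV0) (hM : S_MVV) (hK : 0 < K) {strict : Prop} {w : List A}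
    {c c' : Cfg (vM h rel p0 facc K W N hQ)}
    (hc : Inv w c) (hs : Step strict w.length c c') : Inv w c' := by
  obtain ⟨t, ht, h1 | h2⟩ := hc
  · exact ⟨t, ht, Or.inr (step1 hV hK ht h1 hs)⟩
  · rcases step2 hM hK ht h2 hs with ⟨hlt, h3⟩ | h3
    · exact ⟨t + 1, hlt, Or.inl h3⟩
    · exact ⟨t, ht, Or.inr h3⟩

theorem inv_reach (hV : S_MV0) (hM : S_MVV) (hK : 0 < K) {strict : Prop} {w : List A}
    {c : Cfg (vM h rel p0 facc K W N hQ)}
    (hc : ReflTransGen (Step strict w.length) (init (vM h rel p0 facc K W N hQ) w) c) :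
    Inv w c := by
  induction hc with
  | refl => exact inv_init w
  | tail _ hstep ih => exact inv_step hV hM hK ih hstep

/-- runs on the frozen tape are runs of the machine -/
theorem rs_fr {strict : Prop} (hM : S_MVV) (hK : 0 < K) {w : List A} {t : ℕ} {τ : ℕ → Sym (WS A)}
    (ht : t ≤ w.length) (hA : Ann h rel p0 w τ (min (t + 1) w.length))
    (hB1 : ∀ (t : ℕ) (s : St h) (x : ℕ), SOK h rel p0 facc K W w t s x → Bd h N s)
    (hB2 : ∀ (t : ℕ) (x : Wr), WOK h rel p0 w t x → BdW N x)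
    {c c' : St h × ℕ} (hr : ReflTransGen (RSV h rel p0 facc K W τ (t + 1)) c c')
    (hs : SOK h rel p0 facc K W w t c.1 c.2) (hb : Bd h N c.1) :
    (SOK h rel p0 facc K W w t c'.1 c'.2 ∨
      (c'.2 = t + 2 ∧ ∃ x, c'.1 = .wr x ∧ WOK h rel p0 w (t + 1) x)) ∧
    ∃ hb' : Bd h N c'.1, ReflTransGen (Fr strict (vM h rel p0 facc K W N hQ) τ (t + 1))
      ((⟨c.1, hb⟩ : {s : St h // Bd h N s}), c.2) (⟨c'.1, hb'⟩, c'.2) := by
  induction hr with
  | refl => exact ⟨Or.inl hs, hb, ReflTransGen.refl⟩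
  | tail _ hstep ih =>
    rename_i c1 c2 _
    obtain ⟨hs1, hb1, hrun⟩ := ih
    obtain ⟨h1, d, h3, h4, h5⟩ := hstep
    have hs2 : SOK h rel p0 facc K W w t c1.1 c1.2 := by
      rcases hs1 with h | ⟨h, -⟩
      · exact h
      · omega
    obtain ⟨-, -, h6⟩ := hM A h rel p0 facc K W w t τ hK ht hA c1.1 c2.1 c1.2 c2.2 _ d hs2 h3 h4 h5
    have h7 : SOK h rel p0 facc K W w t c2.1 c2.2 ∨
        (c2.2 = t + 2 ∧ ∃ x, c2.1 = .wr x ∧ WOK h rel p0 w (t + 1) x) := by
      rcases h6 with ⟨x'', -, e2, -, e4, e5, -⟩ | h6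
      · exact Or.inr ⟨e4, x'', e2, e5⟩
      · exact Or.inl h6
    have hb2 : Bd h N c2.1 := by
      rcases h7 with h7 | ⟨-, x, h8, h9⟩
      · exact hB1 _ _ _ h7
      · rw [h8]
        exact hB2 _ _ h9
    exact ⟨h7, hb2, hrun.tail ⟨h1, d, ⟨_, h3, fun _ => rewrite_keep _⟩, h4, h5⟩⟩

/-- there is a first move -/
theorem ex_step1 (hV : S_MV0) (hK : 0 < K) {strict : Prop} {w : List A} {t : ℕ} (ht : t ≤ w.length)
    (hB1 : ∀ (t : ℕ) (s : St h) (x : ℕ), SOK h rel p0 facc K W w t s x → Bd h N s)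
    {c : Cfg (vM h rel p0 facc K W N hQ)} (hc : Ph1 w t c) :
    ∃ c' : Cfg (vM h rel p0 facc K W N hQ), Step strict w.length c c' := by
  obtain ⟨x, e1, e2, hW, hA, hτ, hS⟩ := hc
  have hnot : c.pos ∉ c.seen := by
    rw [e2]
    intro hc
    have := (hS (t + 1) (by omega)).1 hc
    omega
  rcases Nat.lt_or_ge t w.length with hlt | hge
  · have hcell : c.tape c.pos = .sym (.raw w[t]) := by
      rw [e2, hτ (t + 1) (by omega), init_sym hlt]
    have hmok : MOK h rel p0 facc K W w t (mem0 h p0 facc x false 0) :=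
      hV A h rel p0 facc K W w t 0 x false hK hW (fun _ => hlt) (fun h => absurd h (by simp))
    have hb : Bd h N (.hm (mem0 h p0 facc x false 0)) := hB1 _ _ t ⟨hmok, rfl⟩
    refine ⟨⟨⟨.hm (mem0 h p0 facc x false 0), hb⟩, t,
      Function.update c.tape c.pos ((c.tape c.pos).rewrite (.mark w[t] x.b)),
      insert c.pos c.seen⟩, by omega, _, .mark w[t] x.b, false, ?_,
      fun _ h => absurd h hnot, rfl, fun h => absurd h hnot, fun _ => rfl, rfl, by simp,
      fun _ => e2.symm⟩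
    show TrV h rel p0 facc K W c.state.1 (c.tape c.pos) (.hm (mem0 h p0 facc x false 0))
      (.mark w[t] x.b) false
    rw [e1, hcell]
    exact TrV.old _ _ _ _ _ (Tr.wrL x w[t])
  · have hteq : t = w.length := by omega
    have hcell : c.tape c.pos = .rm := by
      rw [e2, hτ (t + 1) (by omega), hteq, init_rm]
    have hmok : MOK h rel p0 facc K W w t (mem0 h p0 facc x true 0) :=
      hV A h rel p0 facc K W w t 0 x true hK hW (fun h => absurd h (by simp)) (fun _ => hteq)
    have hb : Bd h N (.hm (mem0 h p0 facc x true 0)) := hB1 _ _ t ⟨hmok, rfl⟩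
    refine ⟨⟨⟨.hm (mem0 h p0 facc x true 0), hb⟩, t,
      Function.update c.tape c.pos ((c.tape c.pos).rewrite .dum),
      insert c.pos c.seen⟩, by omega, _, .dum, false, ?_,
      fun _ h => absurd h hnot, rfl, fun h => absurd h hnot, fun _ => rfl, rfl, by simp,
      fun _ => e2.symm⟩
    show TrV h rel p0 facc K W c.state.1 (c.tape c.pos) (.hm (mem0 h p0 facc x true 0)) .dum false
    rw [e1, hcell]
    exact TrV.old _ _ _ _ _ (Tr.wrR x)

/-- a configuration with an answer -/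
def Ans (w : List A) (c : Cfg (vM h rel p0 facc K W N hQ)) : Prop :=
  c.pos = w.length + 2 ∧ (c.state.1 = .fin true ∨ c.state.1 = .fin false)

/-- to the next cell or to the end -/
theorem fin2 (hM : S_MVV) (hK : 0 < K) (hR : S_RST) (hAL : S_ALL) (hWG : WGood h rel p0 K W)
    {strict : Prop} {w : List A} {t : ℕ} (ht : t ≤ w.length)
    (hB1 : ∀ (t : ℕ) (s : St h) (x : ℕ), SOK h rel p0 facc K W w t s x → Bd h N s)
    (hB2 : ∀ (t : ℕ) (x : Wr), WOK h rel p0 w t x → BdW N x)
    {c : Cfg (vM h rel p0 facc K W N hQ)} (hc : Ph2 w t c) :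
    (t < w.length ∧ ∃ c', ReflTransGen (Step strict w.length) c c' ∧ Ph1 w (t + 1) c') ∨
    (∃ c', ReflTransGen (Step strict w.length) c c' ∧ Ans w c') := by
  obtain ⟨hSOK, hA, hτ, hS⟩ := hc
  rcases reachV hR hAL hWG ht hA hSOK with ⟨hlt, x'', hrun⟩ | ⟨heq, b, hrun⟩
  · obtain ⟨h7, hb', hrun'⟩ := rs_fr (strict := strict) (hQ := hQ) hM hK ht hA hB1 hB2 hrun hSOK
      c.state.2
    obtain ⟨S', hS', hlift⟩ := lift (n := w.length) (by omega) hA.1 hrun' c.seen hS
    have hW' : WOK h rel p0 w (t + 1) x'' := by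
      rcases h7 with h7 | ⟨-, x', h8, h9⟩
      · exact absurd h7 (fun h => h)
      · have h8' : St.wr x'' = (St.wr x' : St h) := h8
        injection h8' with h10
        rw [h10]
        exact h9
    have hmin : min (t + 1) w.length = t + 1 := by omega
    rw [hmin] at hA hτ
    exact Or.inl ⟨hlt, _, hlift, x'', rfl, rfl, hW', hA, hτ, hS'⟩
  · obtain ⟨-, hb', hrun'⟩ := rs_fr (strict := strict) (hQ := hQ) hM hK ht hA hB1 hB2 hrun hSOK
      c.state.2
    obtain ⟨S', hS', hlift⟩ := lift (n := w.length) (by omega) hA.1 hrun' c.seen hS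
    refine Or.inr ⟨_, hlift, ?_, ?_⟩
    · show t + 2 = w.length + 2
      omega
    · show St.fin b = St.fin true ∨ St.fin b = St.fin false
      cases b
      · exact Or.inr rfl
      · exact Or.inl rfl

/-- every phase leads to an answer -/
theorem live (hV : S_MV0) (hM : S_MVV) (hK : 0 < K) (hR : S_RST) (hAL : S_ALL)
    (hWG : WGood h rel p0 K W) {strict : Prop} {w : List A}
    (hB1 : ∀ (t : ℕ) (s : St h) (x : ℕ), SOK h rel p0 facc K W w t s x → Bd h N s)
    (hB2 : ∀ (t : ℕ) (x : Wr), WOK h rel p0 w t x → BdW N x) (k : ℕ) :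
    ∀ t, t + k = w.length → ∀ c : Cfg (vM h rel p0 facc K W N hQ), Ph1 w t c ∨ Ph2 w t c →
      ∃ c', ReflTransGen (Step strict w.length) c c' ∧ Ans w c' := by
  induction k with
  | zero =>
    intro t ht c hc
    have key : ∀ c : Cfg (vM h rel p0 facc K W N hQ), Ph2 w t c →
        ∃ c', ReflTransGen (Step strict w.length) c c' ∧ Ans w c' := by
      intro c hc
      rcases fin2 (strict := strict) hM hK hR hAL hWG (by omega) hB1 hB2 hc with ⟨hlt, -⟩ | h
      · omega
      · exact h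
    rcases hc with h1 | h2
    · obtain ⟨c', hs⟩ := ex_step1 (strict := strict) hV hK (by omega) hB1 h1
      obtain ⟨c'', hr, hf⟩ := key c' (step1 hV hK (by omega) h1 hs)
      exact ⟨c'', ReflTransGen.head hs hr, hf⟩
    · exact key c h2
  | succ k ih =>
    intro t ht c hc
    have key : ∀ c : Cfg (vM h rel p0 facc K W N hQ), Ph2 w t c →
        ∃ c', ReflTransGen (Step strict w.length) c c' ∧ Ans w c' := by
      intro c hc
      rcases fin2 (strict := strict) hM hK hR hAL hWG (by omega) hB1 hB2 hc with ⟨-, c', hr, h1⟩ | h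
      · obtain ⟨c'', hr', hf⟩ := ih (t + 1) (by omega) c' (Or.inl h1)
        exact ⟨c'', hr.trans hr', hf⟩
      · exact h
    rcases hc with h1 | h2
    · obtain ⟨c', hs⟩ := ex_step1 (strict := strict) hV hK (by omega) hB1 h1
      obtain ⟨c'', hr, hf⟩ := key c' (step1 hV hK (by omega) h1 hs)
      exact ⟨c'', ReflTransGen.head hs hr, hf⟩
    · exact key c h2

end mach

/-- **LIV** -/
theorem t_LIV (hM : S_MVV) (hR : S_RST) (h0 : S_MV0) (hAL : S_ALL) (hB : S_BND) : S_LIV := by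
  intro A _ strict h rel p0 facc K W R N hQ w hWR hN hWG c hc
  obtain ⟨hB1', hB2'⟩ := hB A h rel p0 facc K W R N hWR hN
  have hK : 0 < K := by
    obtain ⟨i, hi, -⟩ := hWG w 0 0 (Nat.zero_le _)
    omega
  obtain ⟨t, ht, hph⟩ := inv_reach h0 hM hK hc
  exact live h0 hM hK hR hAL hWG (hB1' w) (hB2' w) (w.length - t) t (by omega) c hph

end Pool.Agent.L0h95.UZ
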